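import Mathlib
import Pool.Agent.W117.Box5

set_option autoImplicit false

/-!
# A non-multiplicative graph whose box complex is a circle

The graph `K` has 37 vertices.  It contains a homomorphic image of `K₃ × M`, where `M` is the
Groetzsch graph, it is `3`-colourable and triangle-free, so that neither `K₃` nor `M` (which is
`4`-chromatic) maps to `K`.  Its box complex is reduced to that of a `5`-cycle, and then of `K₃`,
by folds and by removals of edges whose link is dismantlable; each of these steps is an explicit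
equivariant deformation, and the list of steps is checked by the kernel.
-/

namespace Pool.Agent.Results.MP_ccca26_co.CircleBoxNotMultiplicative

/-- The categorical (tensor) product of two graphs. -/
def directProduct {V W : Type} (G : SimpleGraph V) (H : SimpleGraph W) : SimpleGraph (V × W) where
  Adj p q := G.Adj p.1 q.1 ∧ H.Adj p.2 q.2
  symm := ⟨fun _ _ h => ⟨h.1.symm, h.2.symm⟩⟩
  loopless := ⟨fun _ h => G.irrefl h.1⟩

/-- The box complex of `G`, i.e. the polyhedral complex `Hom(K₂, G)`: the pairs `(x, y)` of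
probability vectors on `V` such that every vertex in the support of `x` is adjacent to every
vertex in the support of `y`, as a subspace of `ℝ^V × ℝ^V`. -/
def boxComplex {V : Type} [Fintype V] (G : SimpleGraph V) : Set ((V → ℝ) × (V → ℝ)) :=
  {p | (∀ v, 0 ≤ p.1 v) ∧ ∑ v, p.1 v = 1 ∧ (∀ v, 0 ≤ p.2 v) ∧ ∑ v, p.2 v = 1 ∧
    ∀ u v, p.1 u ≠ 0 → p.2 v ≠ 0 → G.Adj u v}

/-- The free involution `(x, y) ↦ (y, x)` of the box complex. -/
def boxSwap {V : Type} [Fintype V] (G : SimpleGraph V) (p : boxComplex G) : boxComplex G :=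
  ⟨(p.1.2, p.1.1), p.2.2.2.1, p.2.2.2.2.1, p.2.1, p.2.2.1,
    fun u v hu hv => (p.2.2.2.2.2 v u hv hu).symm⟩

/-- The antipodal map of the circle. -/
noncomputable def antipode (z : Metric.sphere (0 : ℂ) 1) : Metric.sphere (0 : ℂ) 1 := -z

/-- `f` commutes with the involutions `α` and `β`. -/
def Equivariant {X Y : Type} [TopologicalSpace X] [TopologicalSpace Y] (α : X → X) (β : Y → Y)
    (f : C(X, Y)) : Prop :=
  ∀ x, f (α x) = β (f x)

/-- The spaces `X` and `Y` with the involutions `α` and `β` are `ℤ₂`-homotopy equivalent: there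
are equivariant maps `f : X → Y` and `g : Y → X` such that `g ∘ f` and `f ∘ g` are homotopic to
the identities through equivariant maps. -/
def Z2HomotopyEquivalent {X Y : Type} [TopologicalSpace X] [TopologicalSpace Y]
    (α : X → X) (β : Y → Y) : Prop :=
  ∃ (f : C(X, Y)) (g : C(Y, X)), Equivariant α β f ∧ Equivariant β α g ∧
    (g.comp f).HomotopicWith (ContinuousMap.id X) (Equivariant α α) ∧
    (f.comp g).HomotopicWith (ContinuousMap.id Y) (Equivariant β β)

/-- There are finite simple graphs `K`, `G`, `H` such that the box complex of `K` is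
`ℤ₂`-homotopy equivalent to the circle with the antipodal action, `G × H → K`, but neither
`G → K` nor `H → K`. -/
theorem result :
    ∃ (U V W : Type) (_ : Fintype U) (_ : Fintype V) (_ : Fintype W)
      (K : SimpleGraph U) (G : SimpleGraph V) (H : SimpleGraph W),
      Z2HomotopyEquivalent (boxSwap K) antipode ∧
      Nonempty (directProduct G H →g K) ∧ IsEmpty (G →g K) ∧ IsEmpty (H →g K) := by
  refine ⟨Fin 37, Fin 3, Fin 11, inferInstance, inferInstance, inferInstance,
    W117.Box.gr 37 W117.Box.LK, ⊤, W117.Box.gr 11 W117.Box.LM, ?_, ?_, ?_, ?_⟩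
  · exact W117.Box.boxK
  · refine ⟨⟨fun p => W117.Box.FKv p.1 p.2, ?_⟩⟩
    rintro ⟨g, h⟩ ⟨g', h'⟩ ⟨h1, h2⟩
    exact W117.Box.hom_ok g g' h1 h h' h2
  · refine ⟨fun φ => ?_⟩
    exact W117.Box.no_triangle (φ 0) (φ 1) (φ 2) (φ.map_rel (by simp)) (φ.map_rel (by simp))
      (φ.map_rel (by simp))
  · refine ⟨fun φ => ?_⟩
    exact W117.Box.groetzsch_not_col
      (fun i => (Fin.ofNat 3 (W117.Box.colK.getD (φ i) 0) : Fin 3))
      (fun i j hij => W117.Box.col_ok (φ i) (φ j) (φ.map_rel hij))

end Pool.Agent.Results.MP_ccca26_co.CircleBoxNotMultiplicative
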